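import Pool.Agent.H815.QC.Stm

/-!
# Project QC, lemma R2: the centralizer of the commutator subgroup
-/

set_option autoImplicit false

namespace Pool.Agent.H134.QC

open Pool.Agent.Y110.FJ Pool.Agent.T2H65.GP Pool.Agent.H815.QC
open scoped commutatorElement

/-- the Heisenberg group -/
@[ext] structure Hg where
  a : ℤ
  b : ℤ
  c : ℤ

instance : Mul Hg := ⟨fun x y => ⟨x.a + y.a, x.b + y.b, x.c + y.c + x.a * y.b⟩⟩
instance : One Hg := ⟨⟨0, 0, 0⟩⟩
instance : Inv Hg := ⟨fun x => ⟨-x.a, -x.b, -x.c + x.a * x.b⟩⟩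

theorem mul_def (x y : Hg) : x * y = ⟨x.a + y.a, x.b + y.b, x.c + y.c + x.a * y.b⟩ := rfl
theorem one_def : (1 : Hg) = ⟨0, 0, 0⟩ := rfl
theorem inv_def (x : Hg) : x⁻¹ = ⟨-x.a, -x.b, -x.c + x.a * x.b⟩ := rfl

instance : Group Hg := Group.ofLeftAxioms
  (by
    intro x y z
    simp only [mul_def, Hg.mk.injEq]
    refine ⟨by ring, by ring, by ring⟩)
  (by
    intro x
    simp only [mul_def, one_def]
    ext <;> simp)
  (by
    intro x
    simp only [mul_def, one_def, inv_def, Hg.mk.injEq]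
    refine ⟨by ring, by ring, by ring⟩)

/-- the powers of `X` -/
def hX : Multiplicative ℤ →* Hg where
  toFun n := ⟨Multiplicative.toAdd n, 0, 0⟩
  map_one' := rfl
  map_mul' m n := by
    rw [mul_def]
    simp

/-- the powers of `Y` -/
def hY : Multiplicative ℤ →* Hg where
  toFun n := ⟨0, Multiplicative.toAdd n, 0⟩
  map_one' := rfl
  map_mul' m n := by
    rw [mul_def]
    simp

section heis

variable {V : Type} (Λ : SimpleGraph V) (s t : V)

open Classical in
/-- the images of the vertex groups -/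
noncomputable def fv (v : V) : B2 V v →* Hg :=
  if v = s then hX else if v = t then hY else 1

/-- the homomorphism to the Heisenberg group -/
noncomputable def ft (hst : ¬ Λ.Adj s t) : P2 Λ →* Hg :=
  glift (fv s t) (by
    intro v w h a b
    have key : ∀ v w : V, Λ.Adj v w → (fv s t v = 1) ∨ (fv s t w = 1) := by
      intro v w h
      unfold fv
      by_cases h1 : v = s
      · subst h1
        right
        rw [if_neg (fun hc : w = v => Λ.ne_of_adj h hc.symm), if_neg (fun hc : w = t => hst (hc ▸ h))]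
      · by_cases h2 : v = t
        · subst h2
          right
          rw [if_neg (fun hc : w = s => hst (hc ▸ h.symm)), if_neg (fun hc : w = v => Λ.ne_of_adj h hc.symm)]
        · left
          rw [if_neg h1, if_neg h2]
    rcases key v w h with k | k
    · rw [k]; simp
    · rw [k]; simp)

variable {Λ s t}

theorem ft_of (hst : ¬ Λ.Adj s t) (v : V) (b : B2 V v) :
    ft Λ s t hst (GrP.of Λ (B2 V) v b) = fv s t v b := by
  unfold ft
  rw [glift_of]

theorem ft_s (hst : ¬ Λ.Adj s t) (m : ℤ) : ft Λ s t hst (gp Λ s m) = ⟨m, 0, 0⟩ := by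
  unfold gp
  rw [ft_of]
  unfold fv
  rw [if_pos rfl]
  rfl

theorem ft_t (hst : ¬ Λ.Adj s t) (hne : s ≠ t) (m : ℤ) :
    ft Λ s t hst (gp Λ t m) = ⟨0, m, 0⟩ := by
  unfold gp
  rw [ft_of]
  unfold fv
  rw [if_neg hne.symm, if_pos rfl]
  rfl

theorem ft_o (hst : ¬ Λ.Adj s t) {v : V} (h1 : v ≠ s) (h2 : v ≠ t) (m : ℤ) :
    ft Λ s t hst (gp Λ v m) = 1 := by
  unfold gp
  rw [ft_of]
  unfold fv
  rw [if_neg h1, if_neg h2]
  rfl

/-- the elements `(a, 0, 0)` -/
def SX : Subgroup Hg where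
  carrier := {x | x.b = 0 ∧ x.c = 0}
  one_mem' := ⟨rfl, rfl⟩
  mul_mem' := by
    rintro x y ⟨h1, h2⟩ ⟨h3, h4⟩
    rw [mul_def]
    refine ⟨?_, ?_⟩
    · show x.b + y.b = 0
      rw [h1, h3, add_zero]
    · show x.c + y.c + x.a * y.b = 0
      rw [h2, h4, h3]; ring
  inv_mem' := by
    rintro x ⟨h1, h2⟩
    rw [inv_def]
    refine ⟨?_, ?_⟩
    · show - x.b = 0
      rw [h1]; ring
    · show -x.c + x.a * x.b = 0
      rw [h1, h2]; ring

/-- the elements `(0, b, 0)` -/
def SY : Subgroup Hg where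
  carrier := {x | x.a = 0 ∧ x.c = 0}
  one_mem' := ⟨rfl, rfl⟩
  mul_mem' := by
    rintro x y ⟨h1, h2⟩ ⟨h3, h4⟩
    rw [mul_def]
    refine ⟨?_, ?_⟩
    · show x.a + y.a = 0
      rw [h1, h3, add_zero]
    · show x.c + y.c + x.a * y.b = 0
      rw [h2, h4, h1]; ring
  inv_mem' := by
    rintro x ⟨h1, h2⟩
    rw [inv_def]
    refine ⟨?_, ?_⟩
    · show - x.a = 0
      rw [h1]; ring
    · show -x.c + x.a * x.b = 0
      rw [h1, h2]; ring

theorem ft_SX (hst : ¬ Λ.Adj s t) {T : V → Prop} (ht : ¬ T t) {x : P2 Λ}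
    (hx : x ∈ std Λ (B2 V) T) : ft Λ s t hst x ∈ SX := by
  have h1 : std Λ (B2 V) T ≤ SX.comap (ft Λ s t hst) := by
    refine std_le Λ (B2 V) fun v hv => ?_
    rintro _ ⟨a, rfl⟩
    show ft Λ s t hst (GrP.of Λ (B2 V) v a) ∈ SX
    rw [ft_of]
    unfold fv
    by_cases h1 : v = s
    · rw [if_pos h1]
      exact ⟨rfl, rfl⟩
    · rw [if_neg h1, if_neg (fun hc : v = t => ht (hc ▸ hv))]
      exact one_mem SX
  exact h1 hx

theorem ft_SY (hst : ¬ Λ.Adj s t) {T : V → Prop} (ht : ¬ T s) {x : P2 Λ}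
    (hx : x ∈ std Λ (B2 V) T) : ft Λ s t hst x ∈ SY := by
  have h1 : std Λ (B2 V) T ≤ SY.comap (ft Λ s t hst) := by
    refine std_le Λ (B2 V) fun v hv => ?_
    rintro _ ⟨a, rfl⟩
    show ft Λ s t hst (GrP.of Λ (B2 V) v a) ∈ SY
    rw [ft_of]
    unfold fv
    by_cases h1 : v = s
    · exact absurd (h1 ▸ hv) ht
    · rw [if_neg h1]
      by_cases h2 : v = t
      · rw [if_pos h2]
        exact ⟨rfl, rfl⟩
      · rw [if_neg h2]
        exact one_mem SY
  exact h1 hx

/-- the commutator of powers -/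
theorem comm_XY (m k : ℤ) : ⁅(⟨m, 0, 0⟩ : Hg), (⟨0, k, 0⟩ : Hg)⁆ = ⟨0, 0, m * k⟩ := by
  rw [commutatorElement_def]
  simp only [mul_def, inv_def, Hg.mk.injEq]
  refine ⟨by ring, by ring, by ring⟩

theorem cen_Z (x : Hg) (k : ℤ) : x⁻¹ * (⟨0, 0, k⟩ : Hg) * x = ⟨0, 0, k⟩ := by
  simp only [mul_def, inv_def, Hg.mk.injEq]
  refine ⟨by ring, by ring, by ring⟩

end heis

theorem prod_ite {G V : Type} [Group G] [DecidableEq V] (z : G) (j : V) (l : List V)
    (hl : l.Nodup) : (l.map fun i => if i = j then z else 1).prod = if j ∈ l then z else 1 := by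
  induction l with
  | nil => simp
  | cons a l ih =>
    rw [List.nodup_cons] at hl
    rw [List.map_cons, List.prod_cons, ih hl.2]
    by_cases h : a = j
    · subst h
      rw [if_pos rfl, if_neg hl.1, if_pos List.mem_cons_self, mul_one]
    · rw [if_neg h, one_mul]
      by_cases h2 : j ∈ l
      · rw [if_pos h2, if_pos (List.mem_cons_of_mem a h2)]
      · rw [if_neg h2, if_neg (by
          rw [List.mem_cons]
          rintro (h3 | h3)
          · exact h h3.symm
          · exact h2 h3)]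

/-- **R2.** -/
theorem R2_proof (hB2 : S_B2) (hB3 : S_B3) (hB6 : S_B6) (hB7 : S_B7) :
    Pool.Agent.H815.QC.S_R2 := by
  classical
  intro V _ Λ N _ β hβ b S hInd hTwo y hy
  obtain ⟨hinj, hfin⟩ := hβ
  have hcyc : ∀ v, IsCyclic (B2 V v) := fun v => by
    show IsCyclic (Multiplicative ℤ)
    infer_instance
  let φ : N →* P2 Λ := (MulAut.conj b⁻¹).toMonoidHom.comp β
  have hφ : ∀ n, φ n = b⁻¹ * β n * b := by
    intro n
    show b⁻¹ * β n * (b⁻¹)⁻¹ = _
    rw [inv_inv]
  have hφinj : Function.Injective φ := by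
    intro n n' h
    rw [hφ, hφ] at h
    exact hinj (mul_left_cancel (mul_right_cancel h))
  have hmem : ∀ T n, n ∈ As Λ β b T ↔ φ n ∈ std Λ (B2 V) T := by
    intro T n
    unfold As
    rw [mem_pb, hφ]
  -- powers of the generators in the image
  have hgen : ∀ w : V, ∃ m : ℤ, 0 < m ∧ ∃ n : N, φ n = gp Λ w m := by
    intro w
    obtain ⟨m, hm, -, hr⟩ := Subgroup.exists_pow_mem_of_index_ne_zero (H := β.range)
      hfin.index_ne_zero (b * gp Λ w 1 * b⁻¹)
    obtain ⟨n, hn⟩ := hr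
    refine ⟨m, by exact_mod_cast hm, n, ?_⟩
    rw [hφ, hn, conj_pow]
    have : gp Λ w 1 ^ m = gp Λ w m := by
      unfold gp
      rw [← map_pow, ← ofAdd_nsmul]
      simp
    rw [this]
    group
  choose m hm n hn using hgen
  set H := As Λ β b S with hH
  have hnH : ∀ w, S w → n w ∈ H := by
    intro w hw
    rw [hH, hmem, hn]
    exact vg_le_std Λ (B2 V) hw ⟨_, rfl⟩
  have hTF : TFr N := hB7 V Λ N β hinj
  have hCC : CC H := by
    intro d hd hd1
    obtain ⟨z, hz⟩ := hB2 V Λ (B2 V) hcyc S hInd (φ d) ((hmem S d).1 hd)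
      (fun h => hd1 (hφinj (h.trans (map_one φ).symm)))
    let C : Subgroup N := H ⊓ Subgroup.centralizer {d}
    have hC : ∀ c : C, φ c ∈ Subgroup.zpowers z := by
      intro c
      refine hz (φ c) ((hmem S c).1 c.2.1) ?_
      have h1 := Subgroup.mem_centralizer_singleton_iff.1 c.2.2
      rw [← map_mul, ← map_mul, h1]
    let F : C →* Subgroup.zpowers z := (φ.comp C.subtype).codRestrict _ hC
    have hF : Function.Injective F := by
      intro c c' h
      exact Subtype.ext (hφinj (congrArg Subtype.val h))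
    have : IsCyclic C := isCyclic_of_injective F hF
    obtain ⟨w, hw⟩ := IsCyclic.exists_generator (α := C)
    refine ⟨w.1, fun y hy hyd => ?_⟩
    obtain ⟨k, hk⟩ := Subgroup.mem_zpowers_iff.1
      (hw ⟨y, hy, Subgroup.mem_centralizer_singleton_iff.2 hyd⟩)
    refine Subgroup.mem_zpowers_iff.2 ⟨k, ?_⟩
    have := congrArg Subtype.val hk
    simpa using this
  obtain ⟨s, t, hs, ht, hst⟩ := hTwo
  have hnadj : ∀ i, S i → ¬ Λ.Adj s i := fun i hi => hInd s i hs hi
  have hNA : NA H := by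
    refine ⟨n s, hnH s hs, n t, hnH t ht, fun hc => ?_⟩
    have h1 := congrArg (fun x => ft Λ s t (hnadj t ht) (φ x)) hc
    simp only [map_mul, hn, ft_s, ft_t _ hst, mul_def] at h1
    have h2 := congrArg Hg.c h1
    simp only at h2
    have h3 := mul_pos (hm s) (hm t)
    omega
  have hNA' : NA ⁅H, H⁆ := hB6 N H hTF hCC hNA
  have hDH : ⁅H, H⁆ ≤ H := by
    rw [Subgroup.commutator_le]
    intro g₁ h₁ g₂ h₂
    rw [commutatorElement_def]
    exact mul_mem (mul_mem (mul_mem h₁ h₂) (inv_mem h₁)) (inv_mem h₂)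
  -- the element of full support
  let hfV := Fintype.ofFinite V
  let l : List V := (Finset.univ.filter (fun i => S i ∧ i ≠ s)).toList
  have hl : ∀ i, i ∈ l ↔ S i ∧ i ≠ s := by
    intro i
    simp [l]
  have hlnd : l.Nodup := Finset.nodup_toList _
  let x : N := (l.map fun i => ⁅n s, n i⁆).prod
  have hxD : x ∈ ⁅H, H⁆ := by
    refine Subgroup.list_prod_mem _ ?_
    intro z hz
    obtain ⟨i, hi, rfl⟩ := List.mem_map.1 hz
    exact Subgroup.commutator_mem_commutator (hnH s hs) (hnH i ((hl i).1 hi).1)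
  have hfx : ∀ j (hj : S j) (hjs : j ≠ s), ft Λ s j (hnadj j hj) (φ x) = ⟨0, 0, m s * m j⟩ := by
    intro j hj hjs
    have e1 : ft Λ s j (hnadj j hj) (φ x) =
        (l.map fun i => if i = j then (⟨0, 0, m s * m j⟩ : Hg) else 1).prod := by
      show ft Λ s j (hnadj j hj) (φ (l.map fun i => ⁅n s, n i⁆).prod) = _
      rw [map_list_prod, map_list_prod, List.map_map, List.map_map]
      congr 1
      refine List.map_congr_left fun i hi => ?_
      show ft Λ s j (hnadj j hj) (φ ⁅n s, n i⁆) = _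
      rw [map_commutatorElement, map_commutatorElement, hn, hn, ft_s]
      by_cases hij : i = j
      · subst hij
        rw [if_pos rfl, ft_t _ (Ne.symm hjs), comm_XY]
      · rw [if_neg hij, ft_o _ ((hl i).1 hi).2 hij, commutatorElement_one_right]
    rw [e1, prod_ite _ _ _ hlnd, if_pos ((hl j).2 ⟨hj, hjs⟩)]
  have hMn : Mn Λ (B2 V) S (φ x) := by
    refine ⟨(hmem S x).1 (hDH hxD), ?_⟩
    intro T' hT' ⟨v, hv, hv'⟩ c hc
    by_cases hvs : v = s
    · subst hvs
      have h1 := ft_SY (hnadj t ht) hv' hc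
      rw [map_mul, map_mul, map_inv, hfx t ht hst.symm, cen_Z] at h1
      have h2 : m v * m t = 0 := h1.2
      have h3 := mul_pos (hm v) (hm t)
      omega
    · have h1 := ft_SX (hnadj v hv) hv' hc
      rw [map_mul, map_mul, map_inv, hfx v hv hvs, cen_Z] at h1
      have h2 : m s * m v = 0 := h1.2
      have h3 := mul_pos (hm s) (hm v)
      omega
  obtain ⟨y1, hy1, y2, hy2, hyy, hyx⟩ := hB3 V Λ (B2 V) S (φ x) hMn (φ y) (by
    rw [← map_mul, ← map_mul, hy x hxD])
  have hy1c : ∀ d ∈ ⁅H, H⁆, y1 * φ d = φ d * y1 := by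
    intro d hd
    have h1 : φ y * φ d = φ d * φ y := by rw [← map_mul, ← map_mul, hy d hd]
    have h2 : y2 * φ d = φ d * y2 :=
      std_comm Λ (B2 V) (fun t s ht hs => ht s hs) hy2 ((hmem S d).1 (hDH hd))
    rw [hyy, mul_assoc, h2, ← mul_assoc, ← mul_assoc] at h1
    exact mul_right_cancel h1
  have hy11 : y1 = 1 := by
    by_contra hne
    obtain ⟨z, hz⟩ := hB2 V Λ (B2 V) hcyc S hInd y1 hy1 hne
    obtain ⟨a, ha, c, hc, hac⟩ := hNA'
    have h1 := hz (φ a) ((hmem S a).1 (hDH ha)) (hy1c a ha).symm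
    have h2 := hz (φ c) ((hmem S c).1 (hDH hc)) (hy1c c hc).symm
    obtain ⟨i, hi⟩ := Subgroup.mem_zpowers_iff.1 h1
    obtain ⟨k, hk⟩ := Subgroup.mem_zpowers_iff.1 h2
    apply hac
    apply hφinj
    rw [map_mul, map_mul, ← hi, ← hk, ← zpow_add, ← zpow_add, add_comm]
  rw [hmem, hyy, hy11, one_mul]
  exact hy2

end Pool.Agent.H134.QC
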